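import Pool.Agent.Q202.CCov.Main

set_option autoImplicit false

/-!
# Frobenius-invariant direct sums do not compute the cyclic covering codimension

For every field `L` with `2 ^ 25` elements there are Frobenius-invariant `F_2`-subspaces `W₁`, `W₂`
of `L` (the subfield with `32` elements and the kernel of the trace to it) with `L = W₁ ⊕ W₂`,
`h W₁ ≤ 2`, `h W₂ ≤ 2`, while `h L = 4`.
-/

namespace Pool.Agent.Results.MP_9cc08e_co.NotMax

open Module

section

variable {K L : Type} [Field K] [Field L] [Algebra K L]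

/-- `W` is invariant under the Frobenius map `x ↦ x ^ q`, `q` the number of elements of `K`. -/
def Invariant (W : Submodule K L) : Prop :=
  ∀ x ∈ W, x ^ Nat.card K ∈ W

/-- `U` is a subspace of `W` and every element of `W` is the image of an element of `U` under some
power `x ↦ x ^ (q ^ i)`, `0 ≤ i ≤ n - 1`, of the Frobenius map, where `n` is the degree of `L`
over `K`. -/
def IsCovering (U W : Submodule K L) : Prop :=
  U ≤ W ∧ ∀ x ∈ W, ∃ i < finrank K L, ∃ u ∈ U, u ^ Nat.card K ^ i = x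

/-- The largest codimension in `W` of a covering of `W`. -/
noncomputable def h (W : Submodule K L) : ℕ :=
  sSup {c | ∃ U : Submodule K L, IsCovering U W ∧ finrank K U + c = finrank K W}

end

/-- The statement of Q1: for all finite fields `K`, all finite extensions `L` of `K` and all invariant
`W₁`, `W₂` with `L = W₁ ⊕ W₂` the larger of `h W₁`, `h W₂` is `h L`. -/
def Q1 : Prop :=
  ∀ (K L : Type) [Field K] [Finite K] [Field L] [Finite L] [Algebra K L] (W₁ W₂ : Submodule K L),
    Invariant W₁ → Invariant W₂ → IsCompl W₁ W₂ → max (h W₁) (h W₂) = h (⊤ : Submodule K L)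

theorem h_le {K L : Type} [Field K] [Field L] [Algebra K L] (W : Submodule K L) (c : ℕ)
    (hn : 0 < finrank K L)
    (hW : ∀ U : Submodule K L, IsCovering U W → finrank K W ≤ finrank K U + c) : h W ≤ c := by
  unfold h
  apply csSup_le
  · exact ⟨0, W, ⟨le_rfl, fun x hx => ⟨0, hn, x, hx, by simp⟩⟩, rfl⟩
  · rintro b ⟨U, hU, hb⟩
    have := hW U hU
    omega

theorem le_h {K L : Type} [Field K] [Field L] [Algebra K L] (U W : Submodule K L) (c : ℕ)
    (hU : IsCovering U W) (hc : finrank K U + c = finrank K W) : c ≤ h W := by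
  unfold h
  apply le_csSup
  · refine ⟨finrank K W, ?_⟩
    rintro b ⟨V, _, hb⟩
    omega
  · exact ⟨U, hU, hc⟩

theorem example_25 (L : Type) [Field L] [Finite L] [Algebra (ZMod 2) L]
    (hL : finrank (ZMod 2) L = 25) : ∃ W₁ W₂ : Submodule (ZMod 2) L,
    Invariant W₁ ∧ Invariant W₂ ∧ IsCompl W₁ W₂ ∧ h W₁ ≤ 2 ∧ h W₂ ≤ 2 ∧
      h (⊤ : Submodule (ZMod 2) L) = 4 := by
  obtain ⟨W₁, W₂, h1, h2, hc, f1, f2, l1, l2, lt, U, hU, fU⟩ := Q202.CCov.main_raw hL
  have hcard : Nat.card (ZMod 2) = 2 := Nat.card_zmod 2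
  refine ⟨W₁, W₂, ?_, ?_, hc, ?_, ?_, ?_⟩
  · intro x hx
    rw [hcard]
    exact h1 x hx
  · intro x hx
    rw [hcard]
    exact h2 x hx
  · refine h_le W₁ 2 (by omega) fun V hV => ?_
    have := l1 V hV.1 (fun x hx => by
      have := hV.2 x hx
      rwa [hcard, hL] at this)
    omega
  · refine h_le W₂ 2 (by omega) fun V hV => ?_
    have := l2 V hV.1 (fun x hx => by
      have := hV.2 x hx
      rwa [hcard, hL] at this)
    omega
  · apply le_antisymm
    · refine h_le ⊤ 4 (by omega) fun V hV => ?_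
      have := lt V (fun x => by
        have := hV.2 x Submodule.mem_top
        rwa [hcard, hL] at this)
      rw [finrank_top, hL]
      omega
    · refine le_h U ⊤ 4 ⟨le_top, fun x _ => ?_⟩ ?_
      · rw [hcard, hL]
        exact hU x
      · rw [finrank_top, hL, fU]

theorem result : ¬ Q1 ∧ (∃ (L : Type) (_ : Field L) (_ : Finite L) (_ : Algebra (ZMod 2) L),
      finrank (ZMod 2) L = 25) ∧
    ∀ (L : Type) [Field L] [Finite L] [Algebra (ZMod 2) L], finrank (ZMod 2) L = 25 →
      ∃ W₁ W₂ : Submodule (ZMod 2) L, Invariant W₁ ∧ Invariant W₂ ∧ IsCompl W₁ W₂ ∧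
        h W₁ ≤ 2 ∧ h W₂ ≤ 2 ∧ h (⊤ : Submodule (ZMod 2) L) = 4 := by
  refine ⟨fun hQ => ?_, ⟨GaloisField 2 25, inferInstance, inferInstance, inferInstance,
    GaloisField.finrank 2 (by norm_num)⟩, fun L _ _ _ hL => example_25 L hL⟩
  obtain ⟨W₁, W₂, h1, h2, hc, b1, b2, b3⟩ := example_25 (GaloisField 2 25)
    (GaloisField.finrank 2 (by norm_num))
  have := hQ (ZMod 2) (GaloisField 2 25) W₁ W₂ h1 h2 hc
  omega

end Pool.Agent.Results.MP_9cc08e_co.NotMax
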